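import Mathlib

/-!
# XV, V2: the sum over the entry `x i`
-/

set_option autoImplicit false

namespace Pool.Agent.Helper86.XV

universe v

/-- V2 from V1: the sum over `x₀ ∈ T i`. -/
theorem union_tuples_of
    (V1 : ∀ {α : Type v} {k : ℕ} (T : Fin k → Finset α) (i : Fin k) (x₀ : α)
      (L : Finset ℕ) (_ : ∀ l ∈ L, 1 ≤ l) (P : ℕ → α → Prop) (A Z : ℝ) (_ : 0 ≤ A)
      (_ : 0 ≤ Z) (_ : Z ≤ 1)
      (_ : ∀ j, j ≠ i → ∀ L' ⊆ L, (({y | y ∈ T j ∧ ∀ l ∈ L', P l y}.ncard : ℕ) : ℝ) ≤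
        A ^ L'.card * max (1 / ∏ l ∈ L', (l : ℝ)) Z * (T j).card),
      (({x : Fin k → α | x i = x₀ ∧ (∀ j, j ≠ i → x j ∈ T j) ∧
        ∀ l ∈ L, ∃ j, j ≠ i ∧ P l (x j)}.ncard : ℕ) : ℝ) ≤
        ((k : ℝ) * A) ^ L.card * max (1 / ∏ l ∈ L, (l : ℝ)) Z *
          ∏ j ∈ Finset.univ.erase i, ((T j).card : ℝ))
    {α : Type v} {k : ℕ} (T : Fin k → Finset α) (i : Fin k) (Bd : α → Prop)
    (ℓ : α → Finset ℕ) (P : ℕ → α → Prop) (A Z η : ℝ) (hA : 0 ≤ A)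
    (hZ0 : 0 ≤ Z) (hZ1 : Z ≤ 1) (hη0 : 0 ≤ η)
    (hL : ∀ x ∈ T i, ¬ Bd x → ∀ l ∈ ℓ x, 1 ≤ l)
    (hc : ∀ x ∈ T i, ¬ Bd x → ∀ j, j ≠ i → ∀ L' ⊆ ℓ x,
      (({y | y ∈ T j ∧ ∀ l ∈ L', P l y}.ncard : ℕ) : ℝ) ≤
        A ^ L'.card * max (1 / ∏ l ∈ L', (l : ℝ)) Z * (T j).card)
    (hη : ∀ x ∈ T i, ¬ Bd x →
      ((k : ℝ) * A) ^ (ℓ x).card * max (1 / ∏ l ∈ ℓ x, (l : ℝ)) Z ≤ η) :
    (({x : Fin k → α | (∀ j, x j ∈ T j) ∧ ¬ Bd (x i) ∧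
      ∀ l ∈ ℓ (x i), ∃ j, j ≠ i ∧ P l (x j)}.ncard : ℕ) : ℝ) ≤
      η * ∏ j, ((T j).card : ℝ) := by
  classical
  set S : α → Set (Fin k → α) := fun x₀ => {x : Fin k → α | x i = x₀ ∧ (∀ j, j ≠ i → x j ∈ T j) ∧
        ∀ l ∈ ℓ x₀, ∃ j, j ≠ i ∧ P l (x j)} with hS
  have hfin : ∀ x₀, (S x₀).Finite := by
    intro x₀
    refine Set.Finite.subset
      (Finset.finite_toSet (Fintype.piFinset (Function.update T i {x₀}))) ?_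
    rintro x ⟨h1, h2, -⟩
    rw [Finset.mem_coe, Fintype.mem_piFinset]
    intro j
    by_cases hj : j = i
    · subst hj
      rw [Function.update_self, Finset.mem_singleton]
      exact h1
    · rw [Function.update_of_ne hj]
      exact h2 j hj
  set X0 : Finset α := (T i).filter (fun x => ¬ Bd x) with hX0
  set F : α → Finset (Fin k → α) := fun x₀ => (hfin x₀).toFinset with hF
  have hFc : ∀ x₀, ((F x₀).card : ℝ) = ((S x₀).ncard : ℝ) := by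
    intro x₀
    rw [hF, Set.ncard_eq_toFinset_card _ (hfin x₀)]
  have hsub : {x : Fin k → α | (∀ j, x j ∈ T j) ∧ ¬ Bd (x i) ∧
      ∀ l ∈ ℓ (x i), ∃ j, j ≠ i ∧ P l (x j)} ⊆ ↑(X0.biUnion F) := by
    rintro x ⟨h1, h2, h3⟩
    rw [Finset.mem_coe, Finset.mem_biUnion]
    refine ⟨x i, ?_, ?_⟩
    · rw [hX0, Finset.mem_filter]
      exact ⟨h1 i, h2⟩
    · rw [hF, Set.Finite.mem_toFinset]
      exact ⟨rfl, fun j _ => h1 j, h3⟩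
  have h1 : (({x : Fin k → α | (∀ j, x j ∈ T j) ∧ ¬ Bd (x i) ∧
      ∀ l ∈ ℓ (x i), ∃ j, j ≠ i ∧ P l (x j)}.ncard : ℕ) : ℝ) ≤ ∑ x₀ ∈ X0, ((F x₀).card : ℝ) := by
    have a1 := Set.ncard_le_ncard hsub (Finset.finite_toSet _)
    rw [Set.ncard_coe_finset] at a1
    have a2 : (X0.biUnion F).card ≤ ∑ x₀ ∈ X0, (F x₀).card := Finset.card_biUnion_le
    exact_mod_cast a1.trans a2
  have hprod0 : 0 ≤ ∏ j ∈ Finset.univ.erase i, ((T j).card : ℝ) :=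
    Finset.prod_nonneg fun j _ => Nat.cast_nonneg _
  have h2 : ∀ x₀ ∈ X0, ((F x₀).card : ℝ) ≤ η * ∏ j ∈ Finset.univ.erase i, ((T j).card : ℝ) := by
    intro x₀ hx
    rw [hX0, Finset.mem_filter] at hx
    rw [hFc]
    refine (V1 T i x₀ (ℓ x₀) (hL x₀ hx.1 hx.2) P A Z hA hZ0 hZ1 (hc x₀ hx.1 hx.2)).trans ?_
    exact mul_le_mul_of_nonneg_right (hη x₀ hx.1 hx.2) hprod0
  calc (({x : Fin k → α | (∀ j, x j ∈ T j) ∧ ¬ Bd (x i) ∧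
      ∀ l ∈ ℓ (x i), ∃ j, j ≠ i ∧ P l (x j)}.ncard : ℕ) : ℝ)
      ≤ ∑ x₀ ∈ X0, ((F x₀).card : ℝ) := h1
    _ ≤ ∑ _x₀ ∈ X0, η * ∏ j ∈ Finset.univ.erase i, ((T j).card : ℝ) := Finset.sum_le_sum h2
    _ = (X0.card : ℝ) * (η * ∏ j ∈ Finset.univ.erase i, ((T j).card : ℝ)) := by
        rw [Finset.sum_const, nsmul_eq_mul]
    _ ≤ ((T i).card : ℝ) * (η * ∏ j ∈ Finset.univ.erase i, ((T j).card : ℝ)) := by
        refine mul_le_mul_of_nonneg_right ?_ (mul_nonneg hη0 hprod0)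
        exact_mod_cast Finset.card_filter_le _ _
    _ = η * ∏ j, ((T j).card : ℝ) := by
        rw [← Finset.mul_prod_erase Finset.univ _ (Finset.mem_univ i)]
        ring

end Pool.Agent.Helper86.XV
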