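import Pool.Agent.Helper86.EXO.O3
import Pool.Agent.Helper84.EXO.Trace

/-!
# XV: the share of `vv u` in a product of sets between the ordinary polynomials and all
-/

set_option autoImplicit false

open Polynomial

namespace Pool.Agent.Helper86.XV

open Pool.Agent.Helper84.AA
open Pool.Agent.Helper84.EXO (vv)
open Pool.Agent.Helper86.XU
open Pool.Agent.Helper86.EXO3 (ord_third)

theorem share_T_of (hvv : ∀ q : ℕ, 16 ≤ q → IsTrace q 4 (vv q)) :
    ∃ G : ℕ, ∀ q : ℕ, 16 ≤ q → ∀ p : ℕ, p.Prime → p ∣ q →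
    ∀ (k : ℕ) (g : Fin k → ℕ) (i : Fin k), G ≤ g i → ∀ S : Fin k → Set ℤ[X],
      (∀ j, {h ∈ traceSet q (g j) | ¬ (p : ℤ) ∣ h.coeff 0} ⊆ S j ∧ S j ⊆ traceSet q (g j)) →
      (({h : Fin k → ℤ[X] | ∀ j, h j ∈ S j}.ncard : ℕ) : ℝ) ≤ (q : ℝ) ^ (8 * g i) *
      (({h : Fin k → ℤ[X] | (∀ j, h j ∈ S j) ∧
        ∃ u, IsTrace q (g i - 4) u ∧ h i = vv q * u}.ncard : ℕ) : ℝ) := by
  classical
  obtain ⟨G1, hG4, hG1⟩ := Pool.Agent.Helper19.EX.trace_ratio4U lowerU
  obtain ⟨G2, hG2⟩ := ord_third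
  refine ⟨max G1 (G2 + 4), fun q hq p hp hpq k g i hi S hS => ?_⟩
  have hi1 : G1 ≤ g i := le_trans (le_max_left _ _) hi
  have hi2 : G2 + 4 ≤ g i := le_trans (le_max_right _ _) hi
  have h4 : 4 ≤ g i := by omega
  have hq16 : (16 : ℝ) ≤ q := by exact_mod_cast hq
  -- the ordinary polynomials
  set O : ℕ → Set ℤ[X] := fun n => {h ∈ traceSet q n | ¬ (p : ℤ) ∣ h.coeff 0} with hO
  have hfin : ∀ n, (O n).Finite := fun n => (traceSet_finite q n).subset fun h hh => hh.1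
  have hfinS : ∀ j, (S j).Finite := fun j => (traceSet_finite q (g j)).subset (hS j).2
  have hA : ((S i).ncard : ℝ) ≤ (q : ℝ) ^ (8 * g i) * ((O (g i - 4)).ncard : ℝ) := by
    have a1 : ((S i).ncard : ℝ) ≤ ((traceSet q (g i)).ncard : ℝ) := by
      exact_mod_cast Set.ncard_le_ncard (hS i).2 (traceSet_finite q (g i))
    have a2 := hG1 q hq (g i) hi1
    have a3 := hG2 q hq p hp (g i - 4) (by omega)
    have a4 : (3 : ℝ) ≤ (q : ℝ) ^ g i := by
      calc (3 : ℝ) ≤ q := by linarith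
        _ = (q : ℝ) ^ 1 := (pow_one _).symm
        _ ≤ (q : ℝ) ^ g i := pow_le_pow_right₀ (by linarith) (by omega)
    calc ((S i).ncard : ℝ) ≤ ((traceSet q (g i)).ncard : ℝ) := a1
      _ ≤ (q : ℝ) ^ (7 * g i) * ((traceSet q (g i - 4)).ncard : ℝ) := a2
      _ ≤ (q : ℝ) ^ (7 * g i) * (3 * ((O (g i - 4)).ncard : ℝ)) :=
          mul_le_mul_of_nonneg_left a3 (by positivity)
      _ ≤ (q : ℝ) ^ (7 * g i) * ((q : ℝ) ^ g i * ((O (g i - 4)).ncard : ℝ)) := by gcongr
      _ = (q : ℝ) ^ (8 * g i) * ((O (g i - 4)).ncard : ℝ) := by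
          rw [← mul_assoc, ← pow_add]
          congr 2
          ring
  have hvv' := hvv q hq
  -- `vv u` is ordinary when `u` is
  have hcoef : ∀ u : ℤ[X], ¬ (p : ℤ) ∣ u.coeff 0 → ¬ (p : ℤ) ∣ (vv q * u).coeff 0 := by
    intro u hu hd
    have hv0 : (vv q).coeff 0 = 5 * (q : ℤ) + 1 := by
      rw [vv, mul_coeff_zero]
      simp
    rw [mul_coeff_zero, hv0] at hd
    have hpp : Prime (p : ℤ) := Nat.prime_iff_prime_int.1 hp
    rcases hpp.dvd_or_dvd hd with h | h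
    · have hpq' : (p : ℤ) ∣ 5 * (q : ℤ) := Dvd.dvd.mul_left (by exact_mod_cast hpq) 5
      have h1 : (p : ℤ) ∣ 1 := (dvd_add_right hpq').1 h
      exact hpp.not_dvd_one h1
    · exact hu h
  set T : Fin k → Finset ℤ[X] := fun j => (hfinS j).toFinset with hT
  set U : Finset ℤ[X] := ((hfin (g i - 4)).toFinset).image (fun h => vv q * h) with hU
  have hinj : Function.Injective fun h : ℤ[X] => vv q * h := fun a b hab =>
    mul_left_cancel₀ hvv'.1.ne_zero hab
  have hUc : (U.card : ℝ) = ((O (g i - 4)).ncard : ℝ) := by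
    rw [hU, Finset.card_image_of_injective _ hinj, ← Set.ncard_eq_toFinset_card _ (hfin _)]
  have hTc : ∀ j, ((T j).card : ℝ) = ((S j).ncard : ℝ) := fun j => by
    rw [hT, ← Set.ncard_eq_toFinset_card _ (hfinS _)]
  have h1 : {h : Fin k → ℤ[X] | ∀ j, h j ∈ S j} = ↑(Fintype.piFinset T) := by
    ext h
    rw [Finset.mem_coe, Fintype.mem_piFinset]
    exact forall_congr' fun j => (Set.Finite.mem_toFinset (hfinS _)).symm
  have hall : (({h : Fin k → ℤ[X] | ∀ j, h j ∈ S j}.ncard : ℕ) : ℝ) = ∏ j, ((T j).card : ℝ) := by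
    rw [h1, Set.ncard_coe_finset, Fintype.card_piFinset]
    push_cast
    rfl
  have hsub : ((Fintype.piFinset (Function.update T i U) : Finset (Fin k → ℤ[X])) :
      Set (Fin k → ℤ[X])) ⊆ {h : Fin k → ℤ[X] | (∀ j, h j ∈ S j) ∧
        ∃ u, IsTrace q (g i - 4) u ∧ h i = vv q * u} := by
    intro h hh
    rw [Finset.mem_coe, Fintype.mem_piFinset] at hh
    have hi' := hh i
    rw [Function.update_self, hU, Finset.mem_image] at hi'
    obtain ⟨u, hu, hui⟩ := hi'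
    rw [Set.Finite.mem_toFinset] at hu
    have hu' : IsTrace q (g i - 4) u := hu.1
    refine ⟨fun j => ?_, u, hu', hui.symm⟩
    by_cases hj : j = i
    · subst hj
      rw [← hui]
      have := Pool.Agent.Helper19.EX.isTrace_mul hvv' hu'
      rw [show 4 + (g j - 4) = g j by omega] at this
      exact (hS j).1 ⟨this, hcoef u hu.2⟩
    · have := hh j
      rw [Function.update_of_ne hj, hT] at this
      exact (Set.Finite.mem_toFinset (hfinS _)).1 this
  have hbig : (∏ j, ((Function.update T i U j).card : ℝ)) ≤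
      (({h : Fin k → ℤ[X] | (∀ j, h j ∈ S j) ∧
        ∃ u, IsTrace q (g i - 4) u ∧ h i = vv q * u}.ncard : ℕ) : ℝ) := by
    have hfinb : {h : Fin k → ℤ[X] | (∀ j, h j ∈ S j) ∧
        ∃ u, IsTrace q (g i - 4) u ∧ h i = vv q * u}.Finite := by
      refine Set.Finite.subset (s := {h : Fin k → ℤ[X] | ∀ j, h j ∈ S j}) ?_ fun h hh => hh.1
      rw [h1]
      exact Finset.finite_toSet _
    have h2 := Set.ncard_le_ncard hsub hfinb
    rw [Set.ncard_coe_finset, Fintype.card_piFinset] at h2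
    exact_mod_cast h2
  refine le_trans ?_ (mul_le_mul_of_nonneg_left hbig (by positivity))
  rw [hall]
  rw [← Finset.mul_prod_erase Finset.univ _ (Finset.mem_univ i),
    ← Finset.mul_prod_erase Finset.univ (fun j => ((Function.update T i U j).card : ℝ))
      (Finset.mem_univ i)]
  have h3 : ∏ j ∈ Finset.univ.erase i, ((Function.update T i U j).card : ℝ) =
      ∏ j ∈ Finset.univ.erase i, ((T j).card : ℝ) := by
    refine Finset.prod_congr rfl fun j hj => ?_
    rw [Function.update_of_ne (Finset.ne_of_mem_erase hj)]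
  rw [h3, Function.update_self, hUc, hTc, ← mul_assoc]
  exact mul_le_mul_of_nonneg_right hA (Finset.prod_nonneg fun j _ => Nat.cast_nonneg _)

/-- The share of `vv u`, for all `S j` between the ordinary polynomials and all. -/
theorem share_T : ∃ G : ℕ, ∀ q : ℕ, 16 ≤ q → ∀ p : ℕ, p.Prime → p ∣ q →
    ∀ (k : ℕ) (g : Fin k → ℕ) (i : Fin k), G ≤ g i → ∀ S : Fin k → Set ℤ[X],
      (∀ j, {h ∈ traceSet q (g j) | ¬ (p : ℤ) ∣ h.coeff 0} ⊆ S j ∧ S j ⊆ traceSet q (g j)) →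
      (({h : Fin k → ℤ[X] | ∀ j, h j ∈ S j}.ncard : ℕ) : ℝ) ≤ (q : ℝ) ^ (8 * g i) *
      (({h : Fin k → ℤ[X] | (∀ j, h j ∈ S j) ∧
        ∃ u, IsTrace q (g i - 4) u ∧ h i = vv q * u}.ncard : ℕ) : ℝ) :=
  share_T_of fun _ hq => Pool.Agent.Helper84.EXO.isTrace_vv hq

end Pool.Agent.Helper86.XV
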