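import Mathlib

/-!
# XV, V0 and V1
-/

set_option autoImplicit false

namespace Pool.Agent.Helper86.XV

/-- V0. -/
theorem prod_max_le {ι : Type*} (s : Finset ι) (a : ι → ℝ) (Z : ℝ) (hZ0 : 0 ≤ Z) (hZ1 : Z ≤ 1)
    (h0 : ∀ j ∈ s, 0 ≤ a j) (h1 : ∀ j ∈ s, a j ≤ 1) :
    ∏ j ∈ s, max (a j) Z ≤ max (∏ j ∈ s, a j) Z := by
  classical
  induction s using Finset.induction_on with
  | empty => simp
  | insert j s hj ih =>
    rw [Finset.prod_insert hj, Finset.prod_insert hj]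
    have ih' := ih (fun t ht => h0 t (Finset.mem_insert_of_mem ht))
      (fun t ht => h1 t (Finset.mem_insert_of_mem ht))
    have a0 := h0 j (Finset.mem_insert_self j s)
    have a1 := h1 j (Finset.mem_insert_self j s)
    have b0 : 0 ≤ ∏ t ∈ s, a t := Finset.prod_nonneg fun t ht =>
      h0 t (Finset.mem_insert_of_mem ht)
    have b1 : ∏ t ∈ s, a t ≤ 1 := Finset.prod_le_one
      (fun t ht => h0 t (Finset.mem_insert_of_mem ht))
      (fun t ht => h1 t (Finset.mem_insert_of_mem ht))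
    refine (mul_le_mul_of_nonneg_left ih' (le_trans a0 (le_max_left _ _))).trans ?_
    rcases max_cases (a j) Z with ⟨e, _⟩ | ⟨e, _⟩ <;>
      rcases max_cases (∏ t ∈ s, a t) Z with ⟨e', _⟩ | ⟨e', _⟩ <;> rw [e, e']
    · exact le_max_left _ _
    · exact le_trans (mul_le_of_le_one_left hZ0 a1) (le_max_right _ _)
    · exact le_trans (mul_le_of_le_one_right hZ0 b1) (le_max_right _ _)
    · exact le_trans (mul_le_of_le_one_left hZ0 hZ1) (le_max_right _ _)

/-- V1. -/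
theorem union_count {α : Type*} {k : ℕ} (T : Fin k → Finset α) (i : Fin k) (x₀ : α)
    (L : Finset ℕ) (hL : ∀ l ∈ L, 1 ≤ l) (P : ℕ → α → Prop) (A Z : ℝ) (hA : 0 ≤ A)
    (hZ0 : 0 ≤ Z) (hZ1 : Z ≤ 1)
    (hc : ∀ j, j ≠ i → ∀ L' ⊆ L, (({y | y ∈ T j ∧ ∀ l ∈ L', P l y}.ncard : ℕ) : ℝ) ≤
      A ^ L'.card * max (1 / ∏ l ∈ L', (l : ℝ)) Z * (T j).card) :
    (({x : Fin k → α | x i = x₀ ∧ (∀ j, j ≠ i → x j ∈ T j) ∧
      ∀ l ∈ L, ∃ j, j ≠ i ∧ P l (x j)}.ncard : ℕ) : ℝ) ≤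
      ((k : ℝ) * A) ^ L.card * max (1 / ∏ l ∈ L, (l : ℝ)) Z *
        ∏ j ∈ Finset.univ.erase i, ((T j).card : ℝ) := by
  classical
  set J : Finset (Fin k) := Finset.univ.erase i with hJ
  -- the fibres of `a`
  set Lj : (↥L → Fin k) → Fin k → Finset ℕ := fun a j =>
    (L.attach.filter (fun l => a l = j)).map ⟨Subtype.val, Subtype.val_injective⟩ with hLj
  have hLjsub : ∀ a j, Lj a j ⊆ L := by
    intro a j l hl
    rw [hLj, Finset.mem_map] at hl
    obtain ⟨l', -, rfl⟩ := hl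
    exact l'.2
  set R : (↥L → Fin k) → Fin k → Finset α := fun a =>
    Function.update (fun j => (T j).filter (fun y => ∀ l ∈ Lj a j, P l y)) i {x₀} with hR
  set M : Finset (↥L → Fin k) := Fintype.piFinset (fun _ => J) with hM
  have hsub : {x : Fin k → α | x i = x₀ ∧ (∀ j, j ≠ i → x j ∈ T j) ∧
      ∀ l ∈ L, ∃ j, j ≠ i ∧ P l (x j)} ⊆ ↑(M.biUnion fun a => Fintype.piFinset (R a)) := by
    rintro x ⟨h1, h2, h3⟩
    choose b hb1 hb2 using h3
    rw [Finset.mem_coe, Finset.mem_biUnion]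
    refine ⟨fun l => b l.1 l.2, ?_, ?_⟩
    · rw [hM, Fintype.mem_piFinset]
      intro l
      rw [hJ, Finset.mem_erase]
      exact ⟨hb1 l.1 l.2, Finset.mem_univ _⟩
    · rw [Fintype.mem_piFinset]
      intro j
      rw [hR]
      by_cases hj : j = i
      · subst hj
        simp only [Function.update_self, Finset.mem_singleton]
        exact h1
      · simp only [Function.update_of_ne hj, Finset.mem_filter]
        refine ⟨h2 j hj, fun l hl => ?_⟩
        rw [hLj, Finset.mem_map] at hl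
        obtain ⟨l', hl', rfl⟩ := hl
        rw [Finset.mem_filter] at hl'
        rw [← hl'.2]
        exact hb2 l'.1 l'.2
  have hcard : (({x : Fin k → α | x i = x₀ ∧ (∀ j, j ≠ i → x j ∈ T j) ∧
      ∀ l ∈ L, ∃ j, j ≠ i ∧ P l (x j)}.ncard : ℕ) : ℝ) ≤
      ∑ a ∈ M, ((Fintype.piFinset (R a)).card : ℝ) := by
    have a1 := Set.ncard_le_ncard hsub (Finset.finite_toSet _)
    rw [Set.ncard_coe_finset] at a1
    have a2 : (M.biUnion fun a => Fintype.piFinset (R a)).card ≤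
      ∑ a ∈ M, (Fintype.piFinset (R a)).card := Finset.card_biUnion_le
    exact_mod_cast a1.trans a2
  have hprod0 : 0 ≤ ∏ j ∈ J, ((T j).card : ℝ) := Finset.prod_nonneg fun j _ => Nat.cast_nonneg _
  have hL0 : ∀ L' : Finset ℕ, L' ⊆ L → 1 ≤ ∏ l ∈ L', (l : ℝ) := by
    intro L' hL'
    calc (1 : ℝ) = ∏ l ∈ L', (1 : ℝ) := by rw [Finset.prod_const_one]
      _ ≤ ∏ l ∈ L', (l : ℝ) := Finset.prod_le_prod (fun _ _ => zero_le_one) fun l hl => by
          exact_mod_cast hL l (hL' hl)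
  have hbound : ∀ a ∈ M, ((Fintype.piFinset (R a)).card : ℝ) ≤
      A ^ L.card * max (1 / ∏ l ∈ L, (l : ℝ)) Z * ∏ j ∈ J, ((T j).card : ℝ) := by
    intro a ha
    rw [hM, Fintype.mem_piFinset] at ha
    have hmaps : ∀ l ∈ L.attach, a l ∈ J := fun l _ => ha l
    have c1 : ((Fintype.piFinset (R a)).card : ℝ) = ∏ j ∈ J, ((R a j).card : ℝ) := by
      rw [Fintype.card_piFinset]
      push_cast
      rw [← Finset.mul_prod_erase Finset.univ _ (Finset.mem_univ i), hR]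
      simp only [Function.update_self, Finset.card_singleton, Nat.cast_one, one_mul]
      rfl
    have c2 : ∀ j ∈ J, ((R a j).card : ℝ) ≤
        A ^ (Lj a j).card * max (1 / ∏ l ∈ Lj a j, (l : ℝ)) Z * (T j).card := by
      intro j hj
      rw [hJ, Finset.mem_erase] at hj
      have h := hc j hj.1 (Lj a j) (hLjsub a j)
      have e : (({y | y ∈ T j ∧ ∀ l ∈ Lj a j, P l y}.ncard : ℕ) : ℝ) = ((R a j).card : ℝ) := by
        have e' : {y | y ∈ T j ∧ ∀ l ∈ Lj a j, P l y} = ↑(R a j) := by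
          ext y
          rw [hR]
          simp only [Function.update_of_ne hj.1, Finset.coe_filter]
        rw [e', Set.ncard_coe_finset]
      rw [← e]
      exact h
    have c3 : ∏ j ∈ J, A ^ (Lj a j).card = A ^ L.card := by
      rw [Finset.prod_pow_eq_pow_sum]
      congr 1
      have h := Finset.card_eq_sum_card_fiberwise (f := a) (s := L.attach) (t := J)
        (fun l hl => hmaps l hl)
      rw [Finset.card_attach] at h
      rw [h]
      refine Finset.sum_congr rfl fun j _ => ?_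
      rw [hLj, Finset.card_map]
    have c4 : ∏ j ∈ J, ∏ l ∈ Lj a j, (l : ℝ) = ∏ l ∈ L, (l : ℝ) := by
      have h := Finset.prod_fiberwise_of_maps_to (s := L.attach) (t := J) (g := a) hmaps
        (fun l => ((l : ℕ) : ℝ))
      rw [Finset.prod_attach L (fun l => (l : ℝ))] at h
      rw [← h]
      refine Finset.prod_congr rfl fun j _ => ?_
      rw [hLj, Finset.prod_map]
      rfl
    have c5 : ∏ j ∈ J, max (1 / ∏ l ∈ Lj a j, (l : ℝ)) Z ≤ max (1 / ∏ l ∈ L, (l : ℝ)) Z := by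
      refine (prod_max_le J (fun j => 1 / ∏ l ∈ Lj a j, (l : ℝ)) Z hZ0 hZ1 ?_ ?_).trans ?_
      · intro j _
        have := hL0 (Lj a j) (hLjsub a j)
        positivity
      · intro j _
        have := hL0 (Lj a j) (hLjsub a j)
        rw [div_le_one (by linarith)]
        exact this
      · rw [Finset.prod_div_distrib, Finset.prod_const_one, c4]
    rw [c1]
    calc ∏ j ∈ J, ((R a j).card : ℝ)
        ≤ ∏ j ∈ J, (A ^ (Lj a j).card * max (1 / ∏ l ∈ Lj a j, (l : ℝ)) Z * (T j).card) :=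
          Finset.prod_le_prod (fun j _ => Nat.cast_nonneg _) c2
      _ = A ^ L.card * (∏ j ∈ J, max (1 / ∏ l ∈ Lj a j, (l : ℝ)) Z) *
          ∏ j ∈ J, ((T j).card : ℝ) := by
          rw [Finset.prod_mul_distrib, Finset.prod_mul_distrib, c3]
      _ ≤ A ^ L.card * max (1 / ∏ l ∈ L, (l : ℝ)) Z * ∏ j ∈ J, ((T j).card : ℝ) := by
          refine mul_le_mul_of_nonneg_right ?_ hprod0
          exact mul_le_mul_of_nonneg_left c5 (pow_nonneg hA _)
  have hMc : (M.card : ℝ) ≤ (k : ℝ) ^ L.card := by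
    rw [hM, Fintype.card_piFinset]
    push_cast
    rw [Finset.prod_const, Finset.card_univ, Fintype.card_coe]
    refine pow_le_pow_left₀ (Nat.cast_nonneg _) ?_ _
    have : J.card ≤ k := by
      calc J.card ≤ (Finset.univ : Finset (Fin k)).card := Finset.card_le_card (Finset.erase_subset _ _)
        _ = k := by rw [Finset.card_univ, Fintype.card_fin]
    exact_mod_cast this
  have hmax0 : 0 ≤ max (1 / ∏ l ∈ L, (l : ℝ)) Z := le_trans hZ0 (le_max_right _ _)
  calc (({x : Fin k → α | x i = x₀ ∧ (∀ j, j ≠ i → x j ∈ T j) ∧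
      ∀ l ∈ L, ∃ j, j ≠ i ∧ P l (x j)}.ncard : ℕ) : ℝ)
      ≤ ∑ a ∈ M, ((Fintype.piFinset (R a)).card : ℝ) := hcard
    _ ≤ ∑ _a ∈ M, A ^ L.card * max (1 / ∏ l ∈ L, (l : ℝ)) Z * ∏ j ∈ J, ((T j).card : ℝ) :=
        Finset.sum_le_sum hbound
    _ = (M.card : ℝ) *
        (A ^ L.card * max (1 / ∏ l ∈ L, (l : ℝ)) Z * ∏ j ∈ J, ((T j).card : ℝ)) := by
        rw [Finset.sum_const, nsmul_eq_mul]
    _ ≤ (k : ℝ) ^ L.card *
        (A ^ L.card * max (1 / ∏ l ∈ L, (l : ℝ)) Z * ∏ j ∈ J, ((T j).card : ℝ)) := by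
        refine mul_le_mul_of_nonneg_right hMc ?_
        exact mul_nonneg (mul_nonneg (pow_nonneg hA _) hmax0) hprod0
    _ = ((k : ℝ) * A) ^ L.card * max (1 / ∏ l ∈ L, (l : ℝ)) Z * ∏ j ∈ J, ((T j).card : ℝ) := by
        rw [mul_pow]
        ring

end Pool.Agent.Helper86.XV
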