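import Pool.Agent.Helper86.XV.V1
import Pool.Agent.Helper86.XV.V2

/-!
# XV, V2 closed
-/

set_option autoImplicit false

namespace Pool.Agent.Helper86.XV

/-- V2: the sum over `x₀ ∈ T i`. -/
theorem union_tuples {α : Type*} {k : ℕ} (T : Fin k → Finset α) (i : Fin k) (Bd : α → Prop)
    (ℓ : α → Finset ℕ) (P : ℕ → α → Prop) (A Z η : ℝ) (hA : 0 ≤ A)
    (hZ0 : 0 ≤ Z) (hZ1 : Z ≤ 1) (hη0 : 0 ≤ η)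
    (hL : ∀ x ∈ T i, ¬ Bd x → ∀ l ∈ ℓ x, 1 ≤ l)
    (hc : ∀ x ∈ T i, ¬ Bd x → ∀ j, j ≠ i → ∀ L' ⊆ ℓ x,
      (({y | y ∈ T j ∧ ∀ l ∈ L', P l y}.ncard : ℕ) : ℝ) ≤
        A ^ L'.card * max (1 / ∏ l ∈ L', (l : ℝ)) Z * (T j).card)
    (hη : ∀ x ∈ T i, ¬ Bd x →
      ((k : ℝ) * A) ^ (ℓ x).card * max (1 / ∏ l ∈ ℓ x, (l : ℝ)) Z ≤ η) :
    (({x : Fin k → α | (∀ j, x j ∈ T j) ∧ ¬ Bd (x i) ∧
      ∀ l ∈ ℓ (x i), ∃ j, j ≠ i ∧ P l (x j)}.ncard : ℕ) : ℝ) ≤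
      η * ∏ j, ((T j).card : ℝ) :=
  union_tuples_of (fun T i x₀ L hL P A Z hA h0 h1 hc => union_count T i x₀ L hL P A Z hA h0 h1 hc)
    T i Bd ℓ P A Z η hA hZ0 hZ1 hη0 hL hc hη

end Pool.Agent.Helper86.XV
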